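import Pool.Agent.Q120.SX.Stm

set_option autoImplicit false

/-!
Project SX (helper120), job SPE (helper177): patterns give limit points.
-/

namespace Pool.Agent.Q177.SX

open Finset MeasureTheory Filter Pool.Agent.Q120.ET Pool.Agent.Q120.GM Pool.Agent.Q120.GE Pool.Agent.Q120.RZ Pool.Agent.Q120.SI
  Pool.Agent.Q120.MG Pool.Agent.Q120.SX
open scoped Topology

open Classical in
theorem mem_rb {S : Set ℕ} {k n : ℕ} : n ∈ rb S k ↔ (2 ^ k ≤ n ∧ n < 2 ^ (k + 1)) ∧ n ∈ S := by
  unfold rb block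
  rw [mem_filter, mem_Ico]

theorem t_SPE : J_SPE := by
  classical
  intro S m c h ε hε
  have hinf : (setOf (fun a => a ∈ S)).Infinite := by
    apply Set.infinite_of_forall_exists_gt
    intro a
    obtain ⟨k, ⟨b, hb, -⟩, hk⟩ := ((h 1 one_pos).and (eventually_ge_atTop (a + 1))).exists
    have h1 := mem_rb.1 (hb 0 (Nat.zero_le m))
    refine ⟨b 0, h1.2, ?_⟩
    have h2 : k < 2 ^ k := Nat.lt_two_pow_self
    omega
  obtain ⟨Cm, hCm⟩ : ∃ Cm : ℝ, Cm = ∑ i, |c i| := ⟨_, rfl⟩
  have hCm0 : 0 ≤ Cm := by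
    rw [hCm]
    exact sum_nonneg fun i _ => abs_nonneg _
  have hCle : ∀ i, |c i| ≤ Cm := fun i => by
    rw [hCm]
    exact single_le_sum (f := fun i => |c i|) (fun i _ => abs_nonneg _) (mem_univ i)
  rw [Filter.frequently_atTop]
  intro N
  obtain ⟨K, hK⟩ := exists_nat_gt (Cm * 2 / (ε / 2))
  obtain ⟨k, ⟨b, hb, hb2⟩, hk⟩ := ((h (ε / 4) (by linarith)).and (eventually_ge_atTop (max (max K 1) (Nat.nth (fun a => a ∈ S) N)))).exists
  have hkK : K ≤ k := (le_max_left _ _).trans ((le_max_left _ _).trans hk)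
  have hk1 : 1 ≤ k := (le_max_right _ _).trans ((le_max_left _ _).trans hk)
  have hkN : Nat.nth (fun a => a ∈ S) N ≤ k := (le_max_right _ _).trans hk
  have hmem : ∀ i ≤ m, b i ∈ S := fun i hi => (mem_rb.1 (hb i hi)).2
  have hcons : ∀ i, i < m → b i < b (i + 1) ∧ ∀ n ∈ S, ¬ (b i < n ∧ n < b (i + 1)) := by
    intro i hi
    obtain ⟨h1, h2, -⟩ := hb2 ⟨i, hi⟩
    refine ⟨h1, fun n hn hcon => h2 n ?_ hcon⟩
    have h3 := (mem_rb.1 (hb i (by omega))).1
    have h4 := (mem_rb.1 (hb (i + 1) (by omega))).1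
    exact mem_rb.2 ⟨⟨h3.1.trans hcon.1.le, hcon.2.trans h4.2⟩, hn⟩
  have hcount : ∀ i ≤ m, Nat.nth (fun a => a ∈ S) (Nat.count (fun a => a ∈ S) (b i)) = b i := fun i hi => Nat.nth_count (hmem i hi)
  have hstep : ∀ i, i < m → Nat.count (fun a => a ∈ S) (b (i + 1)) = Nat.count (fun a => a ∈ S) (b i) + 1 := by
    intro i hi
    have h1 := hcount i (by omega)
    have h2 := hcount (i + 1) (by omega)
    obtain ⟨h3, h4⟩ := hcons i hi
    have hmono := Nat.nth_strictMono hinf
    have h5 : Nat.count (fun a => a ∈ S) (b i) < Nat.count (fun a => a ∈ S) (b (i + 1)) := by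
      rw [← hmono.lt_iff_lt, h1, h2]
      exact h3
    by_contra hne
    have h6 : Nat.count (fun a => a ∈ S) (b i) + 1 < Nat.count (fun a => a ∈ S) (b (i + 1)) := by omega
    apply h4 _ (Nat.nth_mem_of_infinite hinf (Nat.count (fun a => a ∈ S) (b i) + 1))
    constructor
    · conv_lhs => rw [← h1]
      exact hmono (Nat.lt_succ_self _)
    · conv_rhs => rw [← h2]
      exact hmono h6
  have hall : ∀ i ≤ m, Nat.count (fun a => a ∈ S) (b i) = Nat.count (fun a => a ∈ S) (b 0) + i := by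
    intro i
    induction i with
    | zero => exact fun _ => rfl
    | succ i ih =>
      intro hi
      rw [hstep i (by omega), ih (by omega)]
      omega
  have helt : ∀ i ≤ m, elt S (Nat.count (fun a => a ∈ S) (b 0) + i) = b i := by
    intro i hi
    unfold elt
    rw [← hall i hi]
    exact hcount i hi
  refine ⟨Nat.count (fun a => a ∈ S) (b 0), ?_, ?_⟩
  · have h1 : Nat.nth (fun a => a ∈ S) N ≤ b 0 := by
      have h2 := (mem_rb.1 (hb 0 (Nat.zero_le m))).1.1
      have h3 : k < 2 ^ k := Nat.lt_two_pow_self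
      omega
    have h2 := Nat.count_monotone (fun a => a ∈ S) h1
    rwa [Nat.count_nth_of_infinite hinf] at h2
  · intro i
    have e0 : elt S (Nat.count (fun a => a ∈ S) (b 0)) = b 0 := helt 0 (Nat.zero_le m)
    have e1 : elt S (Nat.count (fun a => a ∈ S) (b 0) + i) = b i := helt i i.2.le
    have e2 : elt S (Nat.count (fun a => a ∈ S) (b 0) + i + 1) = b (i + 1) := helt (i + 1) i.2
    rw [e0, e1, e2]
    obtain ⟨-, -, h3⟩ := hb2 i
    obtain ⟨⟨g1, g2⟩, -⟩ := mem_rb.1 (hb 0 (Nat.zero_le m))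
    have hl2 : 0 < Real.log 2 := Real.log_pos (by norm_num)
    have hk0 : (1 : ℝ) ≤ k := by exact_mod_cast hk1
    obtain ⟨L, hL⟩ : ∃ L : ℝ, L = k * Real.log 2 := ⟨_, rfl⟩
    obtain ⟨l, hl⟩ : ∃ l : ℝ, l = Real.log (b 0) := ⟨_, rfl⟩
    rw [← hL] at h3
    rw [← hl]
    have hL0 : 0 < L := by
      rw [hL]
      positivity
    have hLl : L ≤ l := by
      rw [hL, hl, ← Real.log_pow]
      apply Real.log_le_log (by positivity)
      exact_mod_cast g1
    have hlL : l ≤ L + Real.log 2 := by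
      have e : L + Real.log 2 = Real.log ((2 : ℝ) ^ (k + 1)) := by
        rw [Real.log_pow, hL]
        push_cast
        ring
      rw [e, hl]
      apply Real.log_le_log
      · have : 0 < b 0 := lt_of_lt_of_le (by positivity) g1
        exact_mod_cast this
      · exact_mod_cast g2.le
    have hl0 : 0 < l := hL0.trans_le hLl
    obtain ⟨g, hg⟩ : ∃ g : ℝ, g = (b (i + 1) : ℝ) - b i := ⟨_, rfl⟩
    rw [← hg] at h3 ⊢
    have hl2' : 0 < l ^ 2 := by positivity
    have hLl2 : L ^ 2 ≤ l ^ 2 := pow_le_pow_left₀ hL0.le hLl 2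
    have hdiff : l ^ 2 - L ^ 2 ≤ 2 / (k : ℝ) * l ^ 2 := by
      have h5 : l - L ≤ 1 / k * L := by
        rw [hL] at hlL ⊢
        have : 1 / (k : ℝ) * (k * Real.log 2) = Real.log 2 := by field_simp
        rw [this]
        linarith
      have h6 : (l - L) * (l + L) ≤ (1 / k * l) * (2 * l) := by
        apply mul_le_mul
        · refine h5.trans (mul_le_mul_of_nonneg_left hLl (by positivity))
        · linarith
        · linarith
        · positivity
      have h7 : (l - L) * (l + L) = l ^ 2 - L ^ 2 := by ring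
      rw [h7] at h6
      refine h6.trans (le_of_eq ?_)
      ring
    have e3 : g / l ^ 2 - c i = ((g - c i * L ^ 2) - c i * (l ^ 2 - L ^ 2)) / l ^ 2 := by
      field_simp
      ring
    rw [e3, abs_div, abs_of_pos hl2', div_lt_iff₀ hl2']
    have h8 : |c i * (l ^ 2 - L ^ 2)| ≤ Cm * (2 / (k : ℝ) * l ^ 2) := by
      rw [abs_mul, abs_of_nonneg (by linarith : 0 ≤ l ^ 2 - L ^ 2)]
      exact mul_le_mul (hCle i) hdiff (by linarith) hCm0
    have h9 : Cm * (2 / (k : ℝ)) ≤ ε / 2 := by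
      have hkK' : (K : ℝ) ≤ k := by exact_mod_cast hkK
      have h10 : Cm * 2 / (ε / 2) < k := hK.trans_le hkK'
      rw [div_lt_iff₀ (by linarith)] at h10
      rw [← mul_div_assoc, div_le_iff₀ (by linarith)]
      linarith
    have h11 : Cm * (2 / (k : ℝ) * l ^ 2) ≤ ε / 2 * l ^ 2 := by
      rw [← mul_assoc]
      exact mul_le_mul_of_nonneg_right h9 hl2'.le
    have h12 : ε / 4 * L ^ 2 ≤ ε / 4 * l ^ 2 := mul_le_mul_of_nonneg_left hLl2 (by linarith)
    refine (abs_sub _ _).trans_lt ?_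
    have h13 : 0 < ε * l ^ 2 := by positivity
    linarith

end Pool.Agent.Q177.SX
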