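import Pool.Agent.Q120.SX.Stm
import Pool.Agent.Q184.LG.GUP

set_option autoImplicit false

/-!
Project SX (helper120), job SPU (helper177): windows with few elements are unlikely in the model.
-/

namespace Pool.Agent.Q177.SX

open Finset MeasureTheory Filter Pool.Agent.Q120.ET Pool.Agent.Q120.GM Pool.Agent.Q120.GE Pool.Agent.Q120.RZ Pool.Agent.Q120.SI
  Pool.Agent.Q120.MG Pool.Agent.Q120.SX
open scoped Topology

section

variable {Ω : Type*} [MeasurableSpace Ω] {μ : Measure Ω} [IsProbabilityMeasure μ] {A : Ω → Set ℕ}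

open Classical in
/-- fewer than `m` elements in `W` -/
theorem few_le {k : ℕ} (hk : 2 ≤ k) {W : Finset ℕ} (hW : W ⊆ block k) (hA : IsModel μ pc A) (m : ℕ) :
    μ.real {ω | (W.filter (fun n => n ∈ A ω)).card < m} ≤
      ((W.card : ℝ) + 1) ^ m * Real.exp (-(((W.card : ℝ) - m) / ((k + 1) * Real.log 2))) := by
  have hl2 : 0 < Real.log 2 := Real.log_pos (by norm_num)
  obtain ⟨𝒮, h𝒮⟩ : ∃ 𝒮 : Finset (Finset ℕ), 𝒮 = (range m).biUnion (fun j => W.powersetCard j) := ⟨_, rfl⟩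
  have hsub : {ω | (W.filter (fun n => n ∈ A ω)).card < m} ⊆ ⋃ Q ∈ 𝒮, free A (W \ Q) := by
    intro ω hω
    rw [Set.mem_iUnion₂]
    refine ⟨W.filter (fun n => n ∈ A ω), ?_, ?_⟩
    · rw [h𝒮, mem_biUnion]
      exact ⟨_, mem_range.2 hω, mem_powersetCard.2 ⟨filter_subset _ _, rfl⟩⟩
    · intro n hn hnA
      rw [Finset.mem_sdiff, mem_filter] at hn
      exact hn.2 ⟨hn.1, hnA⟩
  have hcard : (𝒮.card : ℝ) ≤ ((W.card : ℝ) + 1) ^ m := by
    have h1 : 𝒮.card ≤ ∑ j ∈ range m, W.card.choose j := by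
      rw [h𝒮]
      refine card_biUnion_le.trans (le_of_eq (sum_congr rfl fun j _ => ?_))
      rw [card_powersetCard]
    have h2 : ∑ j ∈ range m, W.card.choose j ≤ (W.card + 1) ^ m := by
      rw [add_pow]
      calc ∑ j ∈ range m, W.card.choose j ≤ ∑ j ∈ range m, W.card ^ j * 1 ^ (m - j) * m.choose j := by
            refine sum_le_sum fun j hj => ?_
            rw [mem_range] at hj
            rw [one_pow, mul_one]
            have h3 := Nat.choose_le_pow W.card j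
            have h4 : 1 ≤ m.choose j := Nat.choose_pos hj.le
            calc W.card.choose j ≤ W.card ^ j := h3
              _ ≤ W.card ^ j * m.choose j := Nat.le_mul_of_pos_right _ h4
        _ ≤ ∑ j ∈ range (m + 1), W.card ^ j * 1 ^ (m - j) * m.choose j :=
            sum_le_sum_of_subset (range_subset_range.2 (Nat.le_succ m))
    exact_mod_cast h1.trans h2
  have hone : ∀ Q ∈ 𝒮, μ.real (free A (W \ Q)) ≤ Real.exp (-(((W.card : ℝ) - m) / ((k + 1) * Real.log 2))) := by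
    intro Q hQ
    rw [h𝒮, mem_biUnion] at hQ
    obtain ⟨j, hj, hQ⟩ := hQ
    rw [mem_range] at hj
    rw [mem_powersetCard] at hQ
    refine (Pool.Agent.Q184.LG.free_le hk (sdiff_subset.trans hW) hA).trans ?_
    apply Real.exp_le_exp.2
    apply neg_le_neg
    apply div_le_div_of_nonneg_right _ (by positivity)
    rw [card_sdiff_of_subset hQ.1, hQ.2, Nat.cast_sub (by rw [← hQ.2]; exact card_le_card hQ.1)]
    have : (j : ℝ) ≤ m := by exact_mod_cast hj.le
    linarith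
  calc μ.real {ω | (W.filter (fun n => n ∈ A ω)).card < m} ≤ μ.real (⋃ Q ∈ 𝒮, free A (W \ Q)) :=
        measureReal_mono hsub (measure_ne_top _ _)
    _ ≤ ∑ Q ∈ 𝒮, μ.real (free A (W \ Q)) := measureReal_biUnion_finset_le _ _
    _ ≤ ∑ _Q ∈ 𝒮, Real.exp (-(((W.card : ℝ) - m) / ((k + 1) * Real.log 2))) := sum_le_sum hone
    _ = 𝒮.card * Real.exp (-(((W.card : ℝ) - m) / ((k + 1) * Real.log 2))) := by rw [sum_const, nsmul_eq_mul]
    _ ≤ _ := mul_le_mul_of_nonneg_right hcard (Real.exp_pos _).le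

/-- the union bound -/
theorem rich_le {k : ℕ} (hk : 2 ≤ k) (hA : IsModel μ pc A) (h m : ℕ) (hh : h ≤ 2 ^ k) (h1 : 1 ≤ h) :
    μ.real {ω | ¬ Rich h m k (tr A (block k) ω)} ≤
      (2 : ℝ) ^ k * (((h : ℝ) + 1) ^ m * Real.exp (-(((h : ℝ) - m) / ((k + 1) * Real.log 2)))) +
      2 * (((h : ℝ) + 1) ^ m * Real.exp (-(((h / 3 : ℕ) - (m : ℝ)) / ((k + 1) * Real.log 2)))) := by
  classical
  have hl2 : 0 < Real.log 2 := Real.log_pos (by norm_num)
  obtain ⟨Wu, hWu⟩ : ∃ Wu : ℕ → Finset ℕ, Wu = fun u => Ico u (u + h) := ⟨_, rfl⟩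
  obtain ⟨W1, hW1⟩ : ∃ W1 : Finset ℕ, W1 = Ico (2 ^ k) (2 ^ k + h / 3) := ⟨_, rfl⟩
  obtain ⟨W2, hW2⟩ : ∃ W2 : Finset ℕ, W2 = Ico (2 ^ (k + 1) - h / 3) (2 ^ (k + 1)) := ⟨_, rfl⟩
  obtain ⟨U, hU⟩ : ∃ U : Finset ℕ, U = Ico (2 ^ k) (2 ^ (k + 1) + 1 - h) := ⟨_, rfl⟩
  have hp : 2 ^ (k + 1) = 2 * 2 ^ k := by rw [pow_succ]; ring
  obtain ⟨P, hP⟩ : ∃ P : ℕ, P = 2 ^ k := ⟨_, rfl⟩
  have hsub : {ω | ¬ Rich h m k (tr A (block k) ω)} ⊆ (⋃ u ∈ U, {ω | ((Wu u).filter (fun n => n ∈ A ω)).card < m}) ∪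
      ({ω | (W1.filter (fun n => n ∈ A ω)).card < m} ∪ {ω | (W2.filter (fun n => n ∈ A ω)).card < m}) := by
    intro ω hω
    by_contra hcon
    rw [Set.mem_union, Set.mem_union, not_or, not_or] at hcon
    obtain ⟨c1, c2, c3⟩ := hcon
    apply hω
    refine ⟨?_, ?_, ?_⟩
    · intro u hu1 hu2
      rw [Set.mem_iUnion₂] at c1
      push Not at c1
      have h3 := c1 u (by
        rw [hU, mem_Ico]
        omega)
      rw [Set.mem_setOf_eq, not_lt] at h3
      refine h3.trans (card_le_card ?_)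
      intro n hn
      rw [mem_filter, hWu, mem_Ico] at hn
      rw [mem_filter, mem_tr]
      refine ⟨⟨?_, hn.2⟩, hn.1⟩
      unfold block
      rw [mem_Ico]
      omega
    · rw [Set.mem_setOf_eq, not_lt] at c2
      refine c2.trans (card_le_card ?_)
      intro n hn
      rw [mem_filter, hW1, mem_Ico] at hn
      rw [mem_filter, mem_tr]
      refine ⟨⟨?_, hn.2⟩, hn.1.2⟩
      unfold block
      rw [mem_Ico]
      omega
    · rw [Set.mem_setOf_eq, not_lt] at c3
      refine c3.trans (card_le_card ?_)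
      intro n hn
      rw [mem_filter, hW2, mem_Ico] at hn
      rw [mem_filter, mem_tr]
      refine ⟨⟨?_, hn.2⟩, by omega⟩
      unfold block
      rw [mem_Ico]
      omega
  have hcW1 : W1.card = h / 3 := by
    rw [hW1, Nat.card_Ico]
    omega
  have hcW2 : W2.card = h / 3 := by
    rw [hW2, Nat.card_Ico]
    omega
  have hbW1 : W1 ⊆ block k := by
    intro n hn
    rw [hW1, mem_Ico] at hn
    unfold block
    rw [mem_Ico]
    omega
  have hbW2 : W2 ⊆ block k := by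
    intro n hn
    rw [hW2, mem_Ico] at hn
    unfold block
    rw [mem_Ico]
    omega
  have hpow : (((h / 3 : ℕ) : ℝ) + 1) ^ m ≤ ((h : ℝ) + 1) ^ m := by
    apply pow_le_pow_left₀ (by positivity)
    have : ((h / 3 : ℕ) : ℝ) ≤ h := by exact_mod_cast Nat.div_le_self h 3
    linarith
  have b1 := few_le (μ := μ) hk hbW1 hA m
  have b2 := few_le (μ := μ) hk hbW2 hA m
  rw [hcW1] at b1
  rw [hcW2] at b2
  have b3 := mul_le_mul_of_nonneg_right hpow (Real.exp_pos (-(((h / 3 : ℕ) - (m : ℝ)) / ((k + 1) * Real.log 2)))).le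
  have b4 : μ.real (⋃ u ∈ U, {ω | ((Wu u).filter (fun n => n ∈ A ω)).card < m}) ≤
      (2 : ℝ) ^ k * (((h : ℝ) + 1) ^ m * Real.exp (-(((h : ℝ) - m) / ((k + 1) * Real.log 2)))) := by
    refine (measureReal_biUnion_finset_le _ _).trans ?_
    have b5 : ∀ u ∈ U, μ.real {ω | ((Wu u).filter (fun n => n ∈ A ω)).card < m} ≤
        ((h : ℝ) + 1) ^ m * Real.exp (-(((h : ℝ) - m) / ((k + 1) * Real.log 2))) := by
      intro u hu
      rw [hU, mem_Ico] at hu
      have hbW : Wu u ⊆ block k := by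
        intro n hn
        rw [hWu, mem_Ico] at hn
        unfold block
        rw [mem_Ico]
        omega
      have b6 := few_le (μ := μ) hk hbW hA m
      have hc : (Wu u).card = h := by
        rw [hWu]
        simp only
        rw [Nat.card_Ico]
        omega
      rw [hc] at b6
      exact b6
    refine (sum_le_sum b5).trans ?_
    rw [sum_const, nsmul_eq_mul]
    refine mul_le_mul_of_nonneg_right ?_ (mul_nonneg (by positivity) (Real.exp_pos _).le)
    have hcU : U.card ≤ 2 ^ k := by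
      rw [hU, Nat.card_Ico]
      omega
    exact_mod_cast hcU
  refine (measureReal_mono hsub (measure_ne_top _ _)).trans ?_
  refine (measureReal_union_le _ _).trans ?_
  have b7 := measureReal_union_le (μ := μ) {ω | (W1.filter (fun n => n ∈ A ω)).card < m} {ω | (W2.filter (fun n => n ∈ A ω)).card < m}
  linarith

end

/-- powers are eventually smaller than exponentials -/
theorem ev_le (D κ : ℝ) (hκ : 0 < κ) (n : ℕ) : ∀ᶠ k : ℕ in atTop, D * ((k : ℝ) + 1) ^ n * Real.exp (-(κ * k)) ≤ 1 := by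
  have h1 : Tendsto (fun x : ℝ => x ^ n * Real.exp (-x)) atTop (𝓝 0) := Real.tendsto_pow_mul_exp_neg_atTop_nhds_zero n
  have h2 : Tendsto (fun k : ℕ => κ * ((k : ℝ) + 1)) atTop atTop :=
    (tendsto_atTop_add_const_right _ _ tendsto_natCast_atTop_atTop).const_mul_atTop hκ
  have h3 := (h1.comp h2).const_mul (D / κ ^ n * Real.exp κ)
  rw [mul_zero] at h3
  refine (h3.eventually_le_const one_pos).mono fun k hk => ?_
  refine le_trans (le_of_eq ?_) hk
  simp only [Function.comp]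
  rw [mul_pow]
  have e1 : Real.exp (-(κ * k)) = Real.exp κ * Real.exp (-(κ * ((k : ℝ) + 1))) := by
    rw [← Real.exp_add]
    congr 1
    ring
  rw [e1]
  have hκn : κ ^ n ≠ 0 := (pow_pos hκ n).ne'
  field_simp

theorem t_SPU : J_SPU := by
  intro s m hs
  have hl2 : 0 < Real.log 2 := Real.log_pos (by norm_num)
  have hl1 : Real.log 2 ≤ 1 := by
    have := Real.log_two_lt_d9
    linarith
  have hs0 : 0 < s := by linarith
  obtain ⟨κ, hκ⟩ : ∃ κ : ℝ, κ = min ((s - 1) * Real.log 2) (s * Real.log 2 / 3) / 2 := ⟨_, rfl⟩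
  have hκ0 : 0 < κ := by
    rw [hκ]
    have h1 : 0 < (s - 1) * Real.log 2 := mul_pos (by linarith) hl2
    have h2 : 0 < s * Real.log 2 / 3 := by positivity
    have := lt_min h1 h2
    linarith
  have hκ1 : 2 * κ ≤ (s - 1) * Real.log 2 := by
    rw [hκ]
    have := min_le_left ((s - 1) * Real.log 2) (s * Real.log 2 / 3)
    linarith
  have hκ2 : 2 * κ ≤ s * Real.log 2 / 3 := by
    rw [hκ]
    have := min_le_right ((s - 1) * Real.log 2) (s * Real.log 2 / 3)
    linarith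
  obtain ⟨E, hE⟩ : ∃ E : ℝ, E = s * Real.log 2 + (m + 2) / Real.log 2 := ⟨_, rfl⟩
  refine ⟨κ, hκ0, ?_⟩
  have ev1 := ev_le (2 * ((s + 1) ^ m * Real.exp E)) κ hκ0 (2 * m)
  have ev2 := ev_le (4 * ((s + 1) ^ m * Real.exp E)) κ hκ0 (2 * m)
  have ev3 := ev_le s (Real.log 2) hl2 2
  obtain ⟨K, hK⟩ := exists_nat_gt (1 / (s * Real.log 2 ^ 2))
  filter_upwards [ev1, ev2, ev3, eventually_ge_atTop (max 2 K)] with k g1 g2 g3 g4
  intro Ω _ μ _ A hA
  have hk2 : 2 ≤ k := (le_max_left _ _).trans g4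
  have hkK : K ≤ k := (le_max_right _ _).trans g4
  have hk2' : (2 : ℝ) ≤ k := by exact_mod_cast hk2
  obtain ⟨h, hh⟩ : ∃ h : ℕ, h = wl s k := ⟨_, rfl⟩
  rw [← hh]
  have hx0 : 0 ≤ s * (k * Real.log 2) ^ 2 := by positivity
  have hle : (h : ℝ) ≤ s * (k * Real.log 2) ^ 2 := by
    rw [hh]
    exact Nat.floor_le hx0
  have hge : s * (k * Real.log 2) ^ 2 - 1 ≤ h := by
    rw [hh]
    have := Nat.lt_floor_add_one (s * (k * Real.log 2) ^ 2)
    unfold wl
    linarith
  have hkl : (k * Real.log 2) ^ 2 ≤ (k : ℝ) ^ 2 := by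
    apply pow_le_pow_left₀ (by positivity)
    nlinarith
  have hle2 : (h : ℝ) ≤ s * (k : ℝ) ^ 2 := hle.trans (mul_le_mul_of_nonneg_left hkl hs0.le)
  have hhk : h ≤ 2 ^ k := by
    have e1 : Real.exp (-(Real.log 2 * k)) * (2 : ℝ) ^ k = 1 := by
      have : (2 : ℝ) ^ k = Real.exp (Real.log 2 * k) := by
        rw [mul_comm, Real.exp_nat_mul, Real.exp_log (by norm_num)]
      rw [this, ← Real.exp_add]
      simp
    have e2 : (h : ℝ) ≤ 2 ^ k := by
      have e3 : s * (k : ℝ) ^ 2 ≤ s * ((k : ℝ) + 1) ^ 2 := by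
        apply mul_le_mul_of_nonneg_left _ hs0.le
        apply pow_le_pow_left₀ (by positivity)
        linarith
      have e4 : s * ((k : ℝ) + 1) ^ 2 * (Real.exp (-(Real.log 2 * k)) * (2 : ℝ) ^ k) ≤ 1 * (2 : ℝ) ^ k := by
        rw [← mul_assoc]
        exact mul_le_mul_of_nonneg_right g3 (by positivity)
      rw [e1, mul_one, one_mul] at e4
      linarith
    exact_mod_cast e2
  have hh1 : 1 ≤ h := by
    rw [hh]
    unfold wl
    rw [Nat.one_le_floor_iff]
    have e1 : 1 / (s * Real.log 2 ^ 2) < k := by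
      have : (K : ℝ) ≤ k := by exact_mod_cast hkK
      linarith
    rw [div_lt_iff₀ (by positivity)] at e1
    have e2 : (k : ℝ) * (s * Real.log 2 ^ 2) ≤ (k : ℝ) ^ 2 * (s * Real.log 2 ^ 2) := by
      apply mul_le_mul_of_nonneg_right _ (by positivity)
      nlinarith
    have e3 : s * (k * Real.log 2) ^ 2 = (k : ℝ) ^ 2 * (s * Real.log 2 ^ 2) := by ring
    rw [e3]
    linarith
  refine (rich_le hk2 hA h m hhk hh1).trans ?_
  have hpow : ((h : ℝ) + 1) ^ m ≤ (s + 1) ^ m * ((k : ℝ) + 1) ^ (2 * m) := by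
    rw [pow_mul, ← mul_pow]
    apply pow_le_pow_left₀ (by positivity)
    nlinarith
  have hden : 0 < ((k : ℝ) + 1) * Real.log 2 := by positivity
  -- the exponents
  have hmain : s * Real.log 2 * k - E ≤ (s * (k * Real.log 2) ^ 2 - (m + 2)) / (((k : ℝ) + 1) * Real.log 2) := by
    rw [le_div_iff₀ hden, hE]
    have e1 : (s * Real.log 2 * k - (s * Real.log 2 + (m + 2) / Real.log 2)) * (((k : ℝ) + 1) * Real.log 2) =
        s * Real.log 2 ^ 2 * ((k : ℝ) ^ 2 - 1) - (m + 2) * ((k : ℝ) + 1) := by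
      field_simp
      ring
    rw [e1]
    have e2 : (0 : ℝ) ≤ m := Nat.cast_nonneg m
    have e3 : 0 ≤ s * Real.log 2 ^ 2 := by positivity
    nlinarith
  have hE0 : 0 ≤ E := by
    rw [hE]
    positivity
  have hexp1 : Real.exp (-(((h : ℝ) - m) / ((k + 1) * Real.log 2))) ≤ Real.exp E * Real.exp (-(s * Real.log 2 * k)) := by
    rw [← Real.exp_add]
    apply Real.exp_le_exp.2
    have e1 : (s * (k * Real.log 2) ^ 2 - (m + 2)) / (((k : ℝ) + 1) * Real.log 2) ≤ ((h : ℝ) - m) / ((k + 1) * Real.log 2) := by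
      apply div_le_div_of_nonneg_right _ hden.le
      linarith
    linarith
  have hexp2 : Real.exp (-(((h / 3 : ℕ) - (m : ℝ)) / ((k + 1) * Real.log 2))) ≤ Real.exp E * Real.exp (-(s * Real.log 2 / 3 * k)) := by
    rw [← Real.exp_add]
    apply Real.exp_le_exp.2
    have e0 : (h : ℝ) / 3 - 1 ≤ (h / 3 : ℕ) := by
      have : h ≤ 3 * (h / 3) + 2 := by omega
      have e : (h : ℝ) ≤ 3 * (h / 3 : ℕ) + 2 := by exact_mod_cast this
      linarith
    have e1 : ((s * (k * Real.log 2) ^ 2 - (m + 2)) / (((k : ℝ) + 1) * Real.log 2)) / 3 - (2 / 3 * (m + 2)) / (((k : ℝ) + 1) * Real.log 2) ≤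
        ((h / 3 : ℕ) - (m : ℝ)) / ((k + 1) * Real.log 2) := by
      rw [div_div, mul_comm (((k : ℝ) + 1) * Real.log 2) 3, ← div_div, ← sub_div]
      apply div_le_div_of_nonneg_right _ hden.le
      linarith
    have e2 : (2 / 3 * ((m : ℝ) + 2)) / (((k : ℝ) + 1) * Real.log 2) ≤ 2 / 3 * E := by
      have e3 : (2 / 3 * ((m : ℝ) + 2)) / (((k : ℝ) + 1) * Real.log 2) ≤ (2 / 3 * ((m : ℝ) + 2)) / Real.log 2 := by
        apply div_le_div_of_nonneg_left (by positivity) hl2
        nlinarith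
      rw [hE]
      have e4 : (2 / 3 * ((m : ℝ) + 2)) / Real.log 2 = 2 / 3 * ((m + 2) / Real.log 2) := by ring
      rw [e4] at e3
      have e5 : 0 ≤ s * Real.log 2 := by positivity
      linarith
    linarith
  have h2k : (2 : ℝ) ^ k = Real.exp (Real.log 2 * k) := by
    rw [mul_comm, Real.exp_nat_mul, Real.exp_log (by norm_num)]
  have hB : 0 ≤ (s + 1) ^ m * Real.exp E * ((k : ℝ) + 1) ^ (2 * m) := by positivity
  have t1 : (2 : ℝ) ^ k * (((h : ℝ) + 1) ^ m * Real.exp (-(((h : ℝ) - m) / ((k + 1) * Real.log 2)))) ≤ 1 / 2 * Real.exp (-(κ * k)) := by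
    calc (2 : ℝ) ^ k * (((h : ℝ) + 1) ^ m * Real.exp (-(((h : ℝ) - m) / ((k + 1) * Real.log 2))))
        ≤ (2 : ℝ) ^ k * (((s + 1) ^ m * ((k : ℝ) + 1) ^ (2 * m)) * (Real.exp E * Real.exp (-(s * Real.log 2 * k)))) := by
          apply mul_le_mul_of_nonneg_left _ (by positivity)
          exact mul_le_mul hpow hexp1 (Real.exp_pos _).le (by positivity)
      _ = (s + 1) ^ m * Real.exp E * ((k : ℝ) + 1) ^ (2 * m) * Real.exp (-((s - 1) * Real.log 2 * k)) := by
          have e : Real.exp (-((s - 1) * Real.log 2 * k)) = Real.exp (Real.log 2 * k) * Real.exp (-(s * Real.log 2 * k)) := by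
            rw [← Real.exp_add]
            congr 1
            ring
          rw [h2k, e]
          ring
      _ ≤ (s + 1) ^ m * Real.exp E * ((k : ℝ) + 1) ^ (2 * m) * (Real.exp (-(κ * k)) * Real.exp (-(κ * k))) := by
          apply mul_le_mul_of_nonneg_left _ hB
          rw [← Real.exp_add]
          apply Real.exp_le_exp.2
          nlinarith
      _ = 1 / 2 * (2 * ((s + 1) ^ m * Real.exp E) * ((k : ℝ) + 1) ^ (2 * m) * Real.exp (-(κ * k))) * Real.exp (-(κ * k)) := by ring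
      _ ≤ 1 / 2 * 1 * Real.exp (-(κ * k)) := by
          apply mul_le_mul_of_nonneg_right _ (Real.exp_pos _).le
          linarith
      _ = _ := by ring
  have t2 : 2 * (((h : ℝ) + 1) ^ m * Real.exp (-(((h / 3 : ℕ) - (m : ℝ)) / ((k + 1) * Real.log 2)))) ≤ 1 / 2 * Real.exp (-(κ * k)) := by
    calc 2 * (((h : ℝ) + 1) ^ m * Real.exp (-(((h / 3 : ℕ) - (m : ℝ)) / ((k + 1) * Real.log 2))))
        ≤ 2 * (((s + 1) ^ m * ((k : ℝ) + 1) ^ (2 * m)) * (Real.exp E * Real.exp (-(s * Real.log 2 / 3 * k)))) := by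
          apply mul_le_mul_of_nonneg_left _ (by norm_num)
          exact mul_le_mul hpow hexp2 (Real.exp_pos _).le (by positivity)
      _ = 2 * ((s + 1) ^ m * Real.exp E * ((k : ℝ) + 1) ^ (2 * m)) * Real.exp (-(s * Real.log 2 / 3 * k)) := by ring
      _ ≤ 2 * ((s + 1) ^ m * Real.exp E * ((k : ℝ) + 1) ^ (2 * m)) * (Real.exp (-(κ * k)) * Real.exp (-(κ * k))) := by
          apply mul_le_mul_of_nonneg_left _ (by positivity)
          rw [← Real.exp_add]
          apply Real.exp_le_exp.2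
          nlinarith
      _ = 1 / 2 * (4 * ((s + 1) ^ m * Real.exp E) * ((k : ℝ) + 1) ^ (2 * m) * Real.exp (-(κ * k))) * Real.exp (-(κ * k)) := by ring
      _ ≤ 1 / 2 * 1 * Real.exp (-(κ * k)) := by
          apply mul_le_mul_of_nonneg_right _ (Real.exp_pos _).le
          linarith
      _ = _ := by ring
  linarith

end Pool.Agent.Q177.SX
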