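import Pool.Agent.Q269.SX.St

/-!
# Project SX, job TRL: base change of the ideal and TRV (helper177)
-/

set_option autoImplicit false
set_option linter.all false

open scoped Classical
open Polynomial IsDedekindDomain Finset

namespace Pool.Agent.Q177.SX

open Pool.Agent.Q269.SX
open Pool.Agent.Y713.SE (hp Pw cl)
open Pool.Agent.Y713.SE.Dat (au rs)

theorem t_TRL (h1 : S_TRV) (h2 : S_IDL) : S_TRL := by
  intro n K _ D E _ _ _ F Ω _ _ _ _ _ _ _ p _ ι χ kd U R hU hUR hUe hz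
  obtain ⟨I, hI, hIU⟩ := h2 n F (D.base F) U R hU hUR hUe
  obtain ⟨φ, hφ⟩ : ∃ φ : F →ₐ[K] Ω, φ = IsScalarTower.toAlgHom K F Ω := ⟨_, rfl⟩
  have hφa : ∀ x : F, φ x = algebraMap F Ω x := fun x => by rw [hφ]; rfl
  have hev : ∀ i, ((D.base Ω).U (D.mI φ I)).eval ((D.base Ω).e i) =
      algebraMap F Ω (U.eval ((D.base F).e i)) := by
    intro i
    rw [D.U_mI φ hI, hIU]
    have h3 : (D.base Ω).e i = (φ : F →+* Ω) ((D.base F).e i) := by
      show algebraMap K Ω (D.e i) = φ (algebraMap K F (D.e i))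
      exact (φ.commutes _).symm
    rw [h3, Polynomial.eval_map_apply]
    exact hφa _
  refine h1 2 n K D E F Ω p ι χ kd (D.mI φ I) (D.mI_ne φ hI) (fun τ => ?_) (fun i => ?_) (fun i j => ?_)
  · rw [D.mI_mI]
    congr 1
    ext x
    show τ (φ x) = φ x
    rw [hφa]
    exact τ.commutes x
  · rw [hev]
    exact (_root_.map_ne_zero _).2 (hUe i)
  · obtain ⟨z, hz0, hz1⟩ := hz i j
    refine ⟨z, hz0, ?_⟩
    rw [hev, hev, IsScalarTower.algebraMap_apply K F Ω, ← map_mul, hz1, map_mul, map_pow]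

end Pool.Agent.Q177.SX
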